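import Pool.Agent.Y851.JM.Stm
import Pool.Agent.TH882.U1

/-! JM-PM (helper908). -/

set_option autoImplicit false

namespace Pool.Agent.Y908.JM

open Finset Filter Pool.Agent.Y851.JM

theorem pwc_mono (m : ℕ) {J J' : ℕ} (h : J ≤ J') : pwc m J ≤ pwc m J' := by
  unfold pwc
  apply card_le_card
  apply filter_subset_filter
  apply Ioc_subset_Ioc_right
  omega

theorem pow_le_ch (x m : ℕ) : (x : ℝ) ^ m ≤ (2 * m : ℝ) ^ m + 2 ^ m * (m.factorial : ℝ) * (x.choose m : ℝ) := by
  by_cases hx : x ≤ 2 * m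
  · have h1 : (x : ℝ) ≤ 2 * m := by exact_mod_cast hx
    have h2 : (x : ℝ) ^ m ≤ (2 * m : ℝ) ^ m := pow_le_pow_left₀ (Nat.cast_nonneg x) h1 m
    have h3 : (0 : ℝ) ≤ 2 ^ m * (m.factorial : ℝ) * (x.choose m : ℝ) := by positivity
    linarith
  · push Not at hx
    have h0 : x ≤ 2 * (x + 1 - m) := by omega
    have h1 : (x + 1 - m) ^ m ≤ m.factorial * x.choose m := by
      rw [← Nat.descFactorial_eq_factorial_mul_choose]
      exact Nat.pow_sub_le_descFactorial x m
    have h2 : x ^ m ≤ 2 ^ m * (m.factorial * x.choose m) := by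
      calc x ^ m ≤ (2 * (x + 1 - m)) ^ m := Nat.pow_le_pow_left h0 m
        _ = 2 ^ m * (x + 1 - m) ^ m := by rw [mul_pow]
        _ ≤ _ := Nat.mul_le_mul_left _ h1
    have h3 : (x : ℝ) ^ m ≤ 2 ^ m * ((m.factorial : ℝ) * (x.choose m : ℝ)) := by exact_mod_cast h2
    have h4 : (0 : ℝ) ≤ (2 * m : ℝ) ^ m := by positivity
    rw [← mul_assoc] at h3
    linarith

theorem t_PM : P_PM := by
  intro m K lam hlam
  rcases Nat.eq_zero_or_pos m with rfl | hm
  · refine ⟨1, le_refl _, ?_⟩
    filter_upwards [eventually_ge_atTop (0 : ℝ)] with X hX H _ _ J _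
    simp only [pow_zero, sum_const, Nat.card_Icc, Nat.add_sub_cancel, nsmul_eq_mul, mul_one, one_mul]
    exact Nat.floor_le hX
  · obtain ⟨k, rfl⟩ : ∃ k, m = k + 1 := ⟨m - 1, by omega⟩
    obtain ⟨D, hD, N₀, hmom⟩ := Pool.Agent.TH882.IX.mom k (K + 2)
    set M : ℕ := k + 1 with hM
    set c : ℝ := 5 + 1 / lam with hc
    have hc0 : 0 < c := by positivity
    have hc5 : 0 < 1 / lam := by positivity
    set A : ℝ := (2 * M : ℝ) ^ M * (1 / lam) ^ M + 2 ^ M * (M.factorial : ℝ) * D * (2 * c) ^ M with hA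
    have hA0 : 0 ≤ A := by positivity
    refine ⟨A + 1, by linarith, ?_⟩
    have tL : Tendsto Real.log atTop atTop := Real.tendsto_log_atTop
    have e1 : ∀ᶠ X : ℝ in atTop, 2 * (1 + c * 2 ^ K) + 2 * Real.log 2 + 1 / lam ≤ Real.log X := tL.eventually_ge_atTop _
    have e2 : ∀ᶠ X : ℝ in atTop, (N₀ : ℝ) + 4 ≤ X := eventually_ge_atTop _
    filter_upwards [e1, e2] with X h1 h2 H hH1 hH2 J hJ
    have hl2 : 0 < Real.log 2 := Real.log_pos (by norm_num)
    have hN0 : (0 : ℝ) ≤ N₀ := Nat.cast_nonneg _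
    have hX0 : 0 < X := by linarith
    have hcK : 0 < c * 2 ^ K := by positivity
    have hLX : 0 < Real.log X := by linarith
    have hlamX : 1 ≤ lam * Real.log X := by
      have : 1 / lam ≤ Real.log X := by linarith
      rw [div_le_iff₀ hlam] at this
      linarith
    have hH0 : 1 ≤ H := le_trans hlamX hH1
    set N : ℕ := ⌊X⌋₊ with hN
    have hNX : (N : ℝ) ≤ X := Nat.floor_le hX0.le
    have hXN : X < N + 1 := Nat.lt_floor_add_one X
    have hN00 : N₀ ≤ N := Nat.le_floor (by linarith)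
    have hNpos : (0 : ℝ) < N := by linarith
    have hN2 : X / 2 ≤ N := by linarith
    have hlN : Real.log X / 2 ≤ Real.log N := by
      have : Real.log (X / 2) ≤ Real.log N := Real.log_le_log (by linarith) hN2
      rw [Real.log_div hX0.ne' (by norm_num)] at this
      linarith
    have hlNX : Real.log N ≤ Real.log X := Real.log_le_log hNpos hNX
    have hlN0 : 0 < Real.log N := by linarith
    have hlN1 : 1 + c * 2 ^ K ≤ Real.log N := by linarith
    set J' : ℕ := ⌈(4 + 1 / lam) * H⌉₊ with hJ'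
    have hJ1 : (4 + 1 / lam) * H ≤ J' := Nat.le_ceil _
    have hJ2 : (J' : ℝ) < (4 + 1 / lam) * H + 1 := Nat.ceil_lt_add_one (by positivity)
    have hHl : 0 ≤ 1 / lam * H := by positivity
    have hJJ : J ≤ J' := by
      have : (J : ℝ) ≤ J' := by nlinarith
      exact_mod_cast this
    have hJc : (J' : ℝ) ≤ c * H := by rw [hc]; nlinarith
    have hJN : Real.log N ≤ J' := by
      have : Real.log X ≤ 1 / lam * H := by
        rw [one_div, inv_mul_eq_div, le_div_iff₀ hlam]; linarith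
      nlinarith
    have hJN2 : (J' : ℝ) ≤ Real.log N ^ (K + 2) := by
      have a1 : H ≤ (2 * Real.log N) ^ K := hH2.trans (pow_le_pow_left₀ hLX.le (by linarith) K)
      have a2 : (J' : ℝ) ≤ (c * 2 ^ K) * Real.log N ^ K := by
        calc (J' : ℝ) ≤ c * H := hJc
          _ ≤ c * (2 * Real.log N) ^ K := by gcongr
          _ = _ := by rw [mul_pow]; ring
      have a3 : c * 2 ^ K ≤ Real.log N ^ 2 := by nlinarith
      calc (J' : ℝ) ≤ (c * 2 ^ K) * Real.log N ^ K := a2
        _ ≤ Real.log N ^ 2 * Real.log N ^ K := by gcongr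
        _ = _ := by rw [← pow_add, add_comm]
    have hm1 := hmom N hN00 J' hJN hJN2
    have hm2 : (∑ n ∈ Icc 1 N, ((pwc n J').choose M : ℝ)) ≤ D * N * (J' / Real.log N) ^ M := by
      have : ((∑ n ∈ Icc 1 N, (pwc n J').choose M : ℕ) : ℝ) ≤ D * N * (J' / Real.log N) ^ M := hm1
      push_cast at this
      exact this
    have hq : (J' : ℝ) / Real.log N ≤ 2 * c * (H / Real.log X) := by
      calc (J' : ℝ) / Real.log N ≤ (c * H) / (Real.log X / 2) := by gcongr
        _ = _ := by field_simp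
    have hq1 : (1 : ℝ) ≤ (1 / lam) ^ M * (H / Real.log X) ^ M := by
      rw [← mul_pow]
      apply one_le_pow₀
      rw [one_div, inv_mul_eq_div, le_div_iff₀ hlam, le_div_iff₀ hLX]
      linarith
    calc ∑ n ∈ Icc 1 N, (pwc n J : ℝ) ^ M ≤ ∑ n ∈ Icc 1 N, ((2 * M : ℝ) ^ M + 2 ^ M * (M.factorial : ℝ) * ((pwc n J').choose M : ℝ)) := by
          apply sum_le_sum
          intro n _
          refine le_trans ?_ (pow_le_ch (pwc n J') M)
          exact pow_le_pow_left₀ (Nat.cast_nonneg _) (by exact_mod_cast pwc_mono n hJJ) M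
      _ = (2 * M : ℝ) ^ M * N + 2 ^ M * (M.factorial : ℝ) * ∑ n ∈ Icc 1 N, ((pwc n J').choose M : ℝ) := by
          rw [sum_add_distrib, mul_sum]
          congr 1
          simp only [sum_const, Nat.card_Icc, Nat.add_sub_cancel, nsmul_eq_mul]
          ring
      _ ≤ (2 * M : ℝ) ^ M * N + 2 ^ M * (M.factorial : ℝ) * (D * N * (J' / Real.log N) ^ M) := by gcongr
      _ ≤ (2 * M : ℝ) ^ M * X * ((1 / lam) ^ M * (H / Real.log X) ^ M) + 2 ^ M * (M.factorial : ℝ) * (D * X * (2 * c * (H / Real.log X)) ^ M) := by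
          have b1 : (2 * M : ℝ) ^ M * N ≤ (2 * M : ℝ) ^ M * X * ((1 / lam) ^ M * (H / Real.log X) ^ M) := by
            calc (2 * M : ℝ) ^ M * N ≤ (2 * M : ℝ) ^ M * X * 1 := by rw [mul_one]; gcongr
              _ ≤ _ := by gcongr
          have b2 : D * N * (J' / Real.log N) ^ M ≤ D * X * (2 * c * (H / Real.log X)) ^ M := by gcongr
          have b3 : (0 : ℝ) ≤ 2 ^ M * (M.factorial : ℝ) := by positivity
          have := mul_le_mul_of_nonneg_left b2 b3
          linarith
      _ = A * X * (H / Real.log X) ^ M := by rw [hA, mul_pow (2 * c)]; ring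
      _ ≤ (A + 1) * X * (H / Real.log X) ^ M := by
          have : 0 ≤ H / Real.log X := by positivity
          gcongr
          linarith

end Pool.Agent.Y908.JM
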